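import Pool.Agent.Helper68.CKN.Wei
import Pool.Agent.Helper28.EK.E6d
set_option autoImplicit false
open Complex MeasureTheory Metric Set Filter Topology
open scoped Real ComplexConjugate

/-!
# Project CK: near-maximisers are nearly critical (`NearStmt`)
-/

namespace Pool.Agent.Helper68.CKN

open Pool.Agent.Helper39.Area Pool.Agent.Helper52.EK Pool.Agent.Helper99.CK
open Pool.Agent.Helper52.CK (FF RR JJ EE kA k1 k3 k5 NearStmt)
open Pool.Agent.Helper5.CK (Variation)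

variable {om om' u u' : ℝ → ℝ} {a b κ : ℝ} {β : ℂ → ℂ}

theorem P_ann (h : Pool.Agent.Helper52.CK.Wt om om' u u' a b) (hβ : Ext β) (κ : ℝ) :
    ContinuousOn (fun z => ‖N β z‖ ^ (-κ)) (Ann (Real.exp (-b)) (Real.exp (-a))) :=
  P_cont hβ κ (by rw [Real.exp_lt_one_iff]; linarith [h.a0])

/-- the functional -/
theorem JJ_eq (h : Pool.Agent.Helper52.CK.Wt om om' u u' a b) (hβ : Ext β) (κ : ℝ) :
    JJ κ om u a b β = JG κ (WW om u) β := by
  have hW := wtG h
  have hr : Real.exp (-a) < 1 := by rw [Real.exp_lt_one_iff]; linarith [h.a0]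
  unfold JG
  rw [logpolar (f := fun z => WW om u z * ‖N β z‖ ^ (-κ)) h.ab.le
    (hW.contW.continuousOn.mul (P_ann h hβ κ)) (fun z hz => by
    rw [hW.supp z hz, zero_mul])]
  unfold JJ RR FF
  apply intervalIntegral.integral_congr
  intro x _
  beta_reduce
  apply intervalIntegral.integral_congr
  intro θ _
  beta_reduce
  rw [WW_ep h, smul_eq_mul]
  have : Real.exp (-2 * x) * Real.exp (2 * x) = 1 := by
    rw [← Real.exp_add]
    simp
  linear_combination (-(om x * u θ * ‖N β (ep (-x) θ)‖ ^ (-κ))) * this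

theorem ker_id {z p : ℂ} (hzp : z - p ≠ 0) (h1 : 1 - p * conj z ≠ 0) :
    (1 / 2) * ((z + p) / (z - p) - (1 + p * conj z) / (1 - p * conj z)) = ka p z := by
  unfold ka
  have h2 : ((1 - ‖z‖ ^ 2 : ℝ) : ℂ) = 1 - z * conj z := by
    rw [Complex.mul_conj, Complex.normSq_eq_norm_sq]
    push_cast
    ring
  rw [h2]
  field_simp
  ring

/-- the first variation -/
theorem EE_eq (h : Pool.Agent.Helper52.CK.Wt om om' u u' a b) (hβ : Ext β) (κ : ℝ) {z0 : ℂ}
    (h0 : z0 ≠ 0) (h1 : ‖z0‖ < Real.exp (-b)) :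
    EE κ om om' u u' a b β z0 = LamG κ (WW om u) (gg om om' u u') β z0 := by
  have hW := wtG h
  have hr : Real.exp (-a) < 1 := by rw [Real.exp_lt_one_iff]; linarith [h.a0]
  have hb1 : Real.exp (-b) < 1 := by rw [Real.exp_lt_one_iff]; linarith [h.a0, h.ab]
  have hz1 : ‖z0‖ < 1 := h1.trans hb1
  unfold LamG
  rw [logpolar h.ab.le]
  rotate_left
  · exact (Complex.continuous_ofReal.comp_continuousOn (P_ann h hβ κ)).mul
      (((Complex.continuous_ofReal.comp_continuousOn hW.contW.continuousOn).mul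
      (ker1_cont (k := κ) hβ hW.pos hr h0 h1 hz1)).sub (kg_cont hW hr h1 hz1))
  · intro z hz
    rw [hW.supp z hz, hW.supp' z hz]
    simp [kg]
  unfold EE FF
  apply intervalIntegral.integral_congr
  intro x hx
  rw [uIcc_of_le h.ab.le] at hx
  beta_reduce
  apply intervalIntegral.integral_congr
  intro θ _
  beta_reduce
  have hzn : ep (-x) θ ≠ 0 := Complex.exp_ne_zero _
  have hzc : conj (ep (-x) θ) ≠ 0 := by simpa using hzn
  have hzA := ep_mem hx θ
  have hzp : ep (-x) θ - z0 ≠ 0 := by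
    intro h2
    rw [sub_eq_zero] at h2
    rw [← h2] at h1
    exact absurd hzA.1 (not_le.mpr h1)
  have hz2 : ‖ep (-x) θ‖ < 1 := ann_ball hr hzA
  have h3 : 1 - z0 * conj (ep (-x) θ) ≠ 0 := one_sub_ne' hz1 hz2
  have e1 := ker_id hzp h3
  rw [WW_ep h]
  have e2 : Real.exp (-2 * x) * Real.exp (2 * x) = 1 := by
    rw [← Real.exp_add]
    simp
  have hkg : ((Real.exp (-2 * x) : ℝ) : ℂ) * kg z0 (ep (-x) θ) (gg om om' u u' (ep (-x) θ)) =
      -(((om' x + 2 * om x) * u θ : ℝ) : ℂ) * ka z0 (ep (-x) θ) -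
        ((om x * u' θ : ℝ) : ℂ) * k5 (ep (-x) θ) z0 := by
    rw [gg_ep h, ← e1]
    unfold kg k5
    have e3 : ((Real.exp (-2 * x) : ℝ) : ℂ) * ((Real.exp (2 * x) : ℝ) : ℂ) = 1 := by
      exact_mod_cast e2
    generalize ((ep (-x) θ + z0) / (ep (-x) θ - z0)) = A
    generalize ((1 + z0 * conj (ep (-x) θ)) / (1 - z0 * conj (ep (-x) θ))) = B
    rw [map_div₀, Complex.conj_conj, map_mul, Complex.conj_ofReal, div_mul_cancel₀ _ hzn,
      div_mul_cancel₀ _ hzc]
    simp only [map_add, map_mul, map_neg, Complex.conj_ofReal, Complex.conj_I]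
    push_cast at e3 ⊢
    linear_combination (1 / 2 * ((-(om' x + 2 * om x) * u θ - om x * u' θ * I) * A -
      (-(om' x + 2 * om x) * u θ + om x * u' θ * I) * B)) * e3
  have hW1 : ((Real.exp (-2 * x) : ℝ) : ℂ) * ((om x * u θ * Real.exp (2 * x) : ℝ) : ℂ) =
      ((om x * u θ : ℝ) : ℂ) := by
    rw [← Complex.ofReal_mul]
    congr 1
    linear_combination (om x * u θ) * e2
  have hk1 : k1 (ep (-x) θ) z0 = kb z0 (ep (-x) θ) := by
    unfold k1 kb
    ring
  have hk3 : k3 (ep (-x) θ) z0 = ka z0 (ep (-x) θ) := by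
    unfold k3 ka
    push_cast
    ring
  rw [Complex.real_smul]
  have e4 : ((Real.exp (-2 * x) : ℝ) : ℂ) * (((‖N β (ep (-x) θ)‖ ^ (-κ) : ℝ) : ℂ) *
      (((om x * u θ * Real.exp (2 * x) : ℝ) : ℂ) * ker1 κ β z0 (ep (-x) θ) -
        kg z0 (ep (-x) θ) (gg om om' u u' (ep (-x) θ)))) =
      ((‖N β (ep (-x) θ)‖ ^ (-κ) : ℝ) : ℂ) *
      ((((Real.exp (-2 * x) : ℝ) : ℂ) * ((om x * u θ * Real.exp (2 * x) : ℝ) : ℂ)) *
        ker1 κ β z0 (ep (-x) θ) -
        ((Real.exp (-2 * x) : ℝ) : ℂ) * kg z0 (ep (-x) θ) (gg om om' u u' (ep (-x) θ))) := by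
    ring
  have hkA : (z0 * dphi β z0 / (phi β (ep (-x) θ) - phi β z0)) ^ 2 =
      4 * z0 ^ 2 * kA β (ep (-x) θ) z0 := by
    unfold kA
    rw [← neg_sub (phi β z0), div_neg]
    generalize phi β z0 - phi β (ep (-x) θ) = d
    ring
  rw [e4, hW1, hkg, hk1, hk3]
  unfold ker1
  rw [hkA]
  push_cast
  ring

/-- dilations converge -/
theorem dil_tendsto (h : Pool.Agent.Helper52.CK.Wt om om' u u' a b) (hβ : Ext β) (κ : ℝ) :
    Tendsto (fun ρ : ℝ => JG κ (WW om u) (fun z => (ρ : ℂ) * β (ρ * z))) (𝓝[<] 1)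
      (𝓝 (JG κ (WW om u) β)) := by
  have hW := wtG h
  have hr : Real.exp (-a) < 1 := by rw [Real.exp_lt_one_iff]; linarith [h.a0]
  have hP : ContinuousOn (fun z => ‖N β z‖ ^ (-κ)) (ball (0:ℂ) 1) :=
    (N_diff hβ).continuousOn.norm.rpow_const fun z hz => Or.inl (norm_ne_zero_iff.mpr (hβ.ne z hz))
  obtain ⟨M, hM⟩ : ∃ M : ℝ, ∀ z : ℂ, ‖z‖ ≤ Real.exp (-a) → ‖N β z‖ ^ (-κ) ≤ M := by
    have hc : IsCompact (closedBall (0:ℂ) (Real.exp (-a))) := isCompact_closedBall _ _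
    have hc2 : ContinuousOn (fun z => ‖N β z‖ ^ (-κ)) (closedBall (0:ℂ) (Real.exp (-a))) :=
      hP.mono (closedBall_subset_ball hr)
    obtain ⟨M, hM⟩ := (hc.image_of_continuousOn hc2).bddAbove
    exact ⟨M, fun z hz => hM ⟨z, by simpa using hz, rfl⟩⟩
  have hM0 : 0 ≤ M := le_trans (by positivity) (hM 0 (by rw [norm_zero]; exact (Real.exp_pos _).le))
  unfold JG
  have hev : ∀ᶠ ρ : ℝ in 𝓝[<] 1, 0 < ρ ∧ ρ < 1 := by
    have h1 : ∀ᶠ ρ : ℝ in 𝓝[<] 1, 0 < ρ := nhdsWithin_le_nhds (lt_mem_nhds (by norm_num))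
    have h2 : ∀ᶠ ρ : ℝ in 𝓝[<] 1, ρ < 1 := self_mem_nhdsWithin
    exact h1.and h2
  have hsc : ∀ ρ : ℝ, 0 < ρ → ρ < 1 → ∀ z : ℂ, ‖z‖ ≤ Real.exp (-a) →
      N (fun z => (ρ : ℂ) * β (ρ * z)) z = N β (ρ * z) := by
    intro ρ h0 h1 z hz
    apply Pool.Agent.Helper28.EK.scale_N hβ.diff
    rw [mem_ball_zero_iff, norm_mul, Complex.norm_real, Real.norm_of_nonneg h0.le]
    calc ρ * ‖z‖ ≤ 1 * Real.exp (-a) := by gcongr
      _ < 1 := by rw [one_mul]; exact hr
  apply tendsto_integral_filter_of_dominated_convergence (fun z => |WW om u z| * M)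
  · filter_upwards [hev] with ρ hρ
    have hE := (Pool.Agent.Helper28.EK.scale_ExtR hβ hρ.1 hρ.2).toExt
    exact (JG_integrable hW hr hE κ).aestronglyMeasurable
  · filter_upwards [hev] with ρ hρ
    refine Eventually.of_forall fun z => ?_
    rw [norm_mul, Real.norm_eq_abs, Real.norm_of_nonneg (by positivity)]
    by_cases hz : z ∈ Ann (Real.exp (-b)) (Real.exp (-a))
    · gcongr
      rw [hsc ρ hρ.1 hρ.2 z hz.2]
      apply hM
      rw [norm_mul, Complex.norm_real, Real.norm_of_nonneg hρ.1.le]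
      calc ρ * ‖z‖ ≤ 1 * Real.exp (-a) := by
            apply mul_le_mul hρ.2.le hz.2 (norm_nonneg _) zero_le_one
        _ = _ := one_mul _
    · rw [hW.supp z hz]
      simp
  · have : Integrable (WW om u) := integrable_ann hW.contW.continuousOn hW.supp
    exact this.abs.mul_const M
  · refine Eventually.of_forall fun z => ?_
    by_cases hz : z ∈ Ann (Real.exp (-b)) (Real.exp (-a))
    · apply Tendsto.const_mul
      have h1 : Tendsto (fun ρ : ℝ => ‖N β ((ρ : ℂ) * z)‖ ^ (-κ)) (𝓝[<] 1)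
          (𝓝 (‖N β z‖ ^ (-κ))) := by
        have hzb : z ∈ ball (0:ℂ) 1 := by simpa using ann_ball hr hz
        have h2 : ContinuousAt (fun z => ‖N β z‖ ^ (-κ)) z :=
          hP.continuousAt (isOpen_ball.mem_nhds hzb)
        have h3 : Tendsto (fun ρ : ℝ => (ρ : ℂ) * z) (𝓝[<] 1) (𝓝 z) := by
          have h4 : Continuous (fun ρ : ℝ => (ρ : ℂ) * z) := by fun_prop
          have h5 := h4.tendsto 1
          rw [Complex.ofReal_one, one_mul] at h5
          exact h5.mono_left nhdsWithin_le_nhds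
        exact h2.tendsto.comp h3
      refine h1.congr' ?_
      filter_upwards [hev] with ρ hρ
      rw [hsc ρ hρ.1 hρ.2 z hz.2]
    · have h1 : ∀ γ : ℂ → ℂ, WW om u z * ‖N γ z‖ ^ (-κ) = 0 := by
        intro γ
        rw [hW.supp z hz, zero_mul]
      simp only [h1]
      exact tendsto_const_nhds

/-- **NEAR**: near-maximisers are nearly critical -/
theorem near_stmt (hV : Variation) (hκ : 0 < κ) : NearStmt κ := by
  intro om om' u u' a b h hom hu η hη
  have hW := wtG h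
  have hpi : (-π : ℝ) ≤ π := by linarith [Real.pi_pos]
  have hr : Real.exp (-a) < 1 := by rw [Real.exp_lt_one_iff]; linarith [h.a0]
  have hr12 : Real.exp (-b) ≤ Real.exp (-a) := Real.exp_le_exp.mpr (by linarith [h.ab])
  have hb0 : 0 < b := h.a0.trans h.ab
  have hW0 : ∀ z, 0 ≤ WW om u z := by
    intro z
    unfold WW Hw
    have := h.om0 (-(Complex.log z).re)
    have := h.u0 (Complex.log z).im
    positivity
  have hJ0 : ∀ γ, 0 ≤ JG κ (WW om u) γ := fun γ =>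
    integral_nonneg fun z => mul_nonneg (hW0 z) (by positivity)
  -- the supremum
  obtain ⟨c, hc⟩ : ∃ c, c = 1 - Real.exp (-a) ^ 2 := ⟨_, rfl⟩
  have hc0 : 0 < c := by rw [hc]; nlinarith [Real.exp_pos (-a)]
  obtain ⟨B, hB⟩ : ∃ B, B = ∫ z : ℂ, WW om u z * c ^ (-κ) := ⟨_, rfl⟩
  have hbdd : ∀ γ, Ext γ → JG κ (WW om u) γ ≤ B := by
    intro γ hγ
    rw [hB]
    have hWi : Integrable (WW om u) := integrable_ann hW.contW.continuousOn hW.supp
    apply integral_mono (JG_integrable hW hr hγ κ) (hWi.mul_const _)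
    intro z
    beta_reduce
    by_cases hz : z ∈ Ann (Real.exp (-b)) (Real.exp (-a))
    · apply mul_le_mul_of_nonneg_left _ (hW0 z)
      have h1 : c ≤ ‖N γ z‖ := by
        refine le_trans ?_ (Pool.Agent.Helper39.EK.N_ge hγ (ann_ball hr hz))
        rw [hc]
        have := pow_le_pow_left₀ (norm_nonneg z) hz.2 2
        linarith
      exact Real.rpow_le_rpow_of_nonpos hc0 h1 (by linarith)
    · rw [hW.supp z hz, zero_mul, zero_mul]
  obtain ⟨S, hS⟩ : ∃ S : Set ℝ, S = {t | ∃ γ, Ext γ ∧ t = JG κ (WW om u) γ} := ⟨_, rfl⟩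
  have hSb : BddAbove S := by
    refine ⟨B, ?_⟩
    rw [hS]
    rintro t ⟨γ, hγ, rfl⟩
    exact hbdd γ hγ
  -- the identity map
  have hE0 : Ext (fun _ => (0:ℂ)) := by
    refine ⟨differentiableOn_const _, ?_, ?_⟩
    · intro ζ ω _ _ _ _ heq
      simpa using heq
    · intro ζ _
      simp
  have hpos : 0 < JG κ (WW om u) (fun _ => (0:ℂ)) := by
    have hN : ∀ z, N (fun _ => (0:ℂ)) z = 1 := by
      intro z
      unfold N
      simp
    unfold JG
    simp only [hN, norm_one, Real.one_rpow, mul_one]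
    obtain ⟨x, hx⟩ := hom
    obtain ⟨θ, hθ⟩ := hu
    apply (hW.contW.integral_pos_of_hasCompactSupport_nonneg_nonzero ?_ hW0
      (x := ep (-x) θ) ?_)
    · exact HasCompactSupport.of_support_subset_isCompact (isCompact_Ann _ _) (fun z hz => by
        by_contra h1
        exact hz (hW.supp z h1))
    · rw [WW_ep h]
      positivity
  have hSne : S.Nonempty := ⟨JG κ (WW om u) (fun _ => (0:ℂ)), by rw [hS]; exact ⟨_, hE0, rfl⟩⟩
  have hsup : 0 < sSup S := lt_of_lt_of_le hpos (le_csSup hSb (by rw [hS]; exact ⟨_, hE0, rfl⟩))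
  -- the parameters
  obtain ⟨ε, hε0, hε1, hε2⟩ : ∃ ε : ℝ, 0 < ε ∧ ε ≤ Real.exp (-1) ∧
      Real.exp (-2 * b) ≤ Real.exp (-b) - ε := by
    have h1 : Real.exp (-2 * b) < Real.exp (-b) := Real.exp_lt_exp.mpr (by linarith)
    refine ⟨min (Real.exp (-1)) (Real.exp (-b) - Real.exp (-2 * b)),
      lt_min (Real.exp_pos _) (by linarith), min_le_left _ _, ?_⟩
    linarith [min_le_right (Real.exp (-1)) (Real.exp (-b) - Real.exp (-2 * b))]
  obtain ⟨C, s₀, hC, hs₀, hnear⟩ := near_crit hV hW hr12 hr hκ hε0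
  obtain ⟨s, hs0, hs1, hs2, hs3⟩ : ∃ s : ℝ, 0 < s ∧ s ≤ s₀ ∧ C * s ≤ η ∧
      s ^ 2 ≤ min (η * (sSup S / 2)) (sSup S / 2) := by
    obtain ⟨q, hq⟩ : ∃ q, q = min (η * (sSup S / 2)) (sSup S / 2) := ⟨_, rfl⟩
    have hq0 : 0 < q := by rw [hq]; exact lt_min (by positivity) (by positivity)
    refine ⟨min s₀ (min (η / (C + 1)) (Real.sqrt q)), ?_, min_le_left _ _, ?_, ?_⟩
    · exact lt_min hs₀ (lt_min (by positivity) (Real.sqrt_pos.mpr hq0))
    · have h1 : min s₀ (min (η / (C + 1)) (Real.sqrt q)) ≤ η / (C + 1) :=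
        (min_le_right _ _).trans (min_le_left _ _)
      calc C * min s₀ (min (η / (C + 1)) (Real.sqrt q)) ≤ C * (η / (C + 1)) := by gcongr
        _ = η * (C / (C + 1)) := by ring
        _ ≤ η * 1 := by
            gcongr
            rw [div_le_one (by positivity)]
            linarith
        _ = η := mul_one _
    · rw [← hq]
      have h1 : min s₀ (min (η / (C + 1)) (Real.sqrt q)) ≤ Real.sqrt q :=
        (min_le_right _ _).trans (min_le_right _ _)
      have h2 : 0 ≤ min s₀ (min (η / (C + 1)) (Real.sqrt q)) :=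
        le_min hs₀.le (le_min (by positivity) (Real.sqrt_nonneg _))
      calc (min s₀ (min (η / (C + 1)) (Real.sqrt q))) ^ 2 ≤ Real.sqrt q ^ 2 := by gcongr
        _ = q := Real.sq_sqrt hq0.le
  -- a near-maximiser
  obtain ⟨t, htS, ht⟩ := exists_lt_of_lt_csSup hSne (show sSup S - s ^ 2 < sSup S by
    have : 0 < s ^ 2 := by positivity
    linarith)
  rw [hS] at htS
  obtain ⟨β₀, hβ₀, rfl⟩ := htS
  have hdil := dil_tendsto h hβ₀ κ
  have hev : ∀ᶠ ρ : ℝ in 𝓝[<] 1, (sSup S - s ^ 2 <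
      JG κ (WW om u) (fun z => (ρ : ℂ) * β₀ (ρ * z))) ∧ 0 < ρ ∧ ρ < 1 := by
    have h0 := hdil.eventually (lt_mem_nhds ht)
    have h1 : ∀ᶠ ρ : ℝ in 𝓝[<] 1, 0 < ρ := nhdsWithin_le_nhds (lt_mem_nhds (by norm_num))
    have h2 : ∀ᶠ ρ : ℝ in 𝓝[<] 1, ρ < 1 := self_mem_nhdsWithin
    exact h0.and (h1.and h2)
  obtain ⟨ρ, hρJ, hρ0, hρ1⟩ := hev.exists
  have hβR := Pool.Agent.Helper28.EK.scale_ExtR hβ₀ hρ0 hρ1
  have hβ := hβR.toExt
  obtain ⟨β, hβdef⟩ : ∃ β : ℂ → ℂ, β = fun z => (ρ : ℂ) * β₀ (ρ * z) := ⟨_, rfl⟩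
  rw [← hβdef] at hρJ hβR hβ
  have hle : ∀ γ, Ext γ → JG κ (WW om u) γ ≤ sSup S := fun γ hγ =>
    le_csSup hSb (by rw [hS]; exact ⟨_, hγ, rfl⟩)
  refine ⟨β, ρ⁻¹, hβR, ?_, ?_⟩
  · intro γ hγ
    rw [JJ_eq h hγ, JJ_eq h hβ]
    have h1 := hle γ hγ
    have h2 := hJ0 γ
    have h3 := hJ0 β
    rcases le_or_gt η 1 with hη1 | hη1
    · have h4 : s ^ 2 ≤ η * (sSup S / 2) := hs3.trans (min_le_left _ _)
      calc (1 - η) * JG κ (WW om u) γ ≤ (1 - η) * sSup S :=
            mul_le_mul_of_nonneg_left h1 (by linarith)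
        _ ≤ JG κ (WW om u) β := by nlinarith
    · exact le_trans (mul_nonpos_of_nonpos_of_nonneg (by linarith) h2) h3
  · intro z0 hz1 hz2
    have hz0 : z0 ≠ 0 := by
      intro h0
      rw [h0, norm_zero] at hz1
      exact absurd hz1 (not_le.mpr (Real.exp_pos _))
    rw [EE_eq h hβ κ hz0 (lt_of_le_of_lt hz2 (Real.exp_lt_exp.mpr (by linarith)))]
    exact (hnear s hs0 hs1 β hβ (fun γ hγ => by linarith [hle γ hγ]) z0 (hε1.trans hz1)
      (hz2.trans hε2)).trans hs2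

end Pool.Agent.Helper68.CKN
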