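import Pool.Agent.Helper52.EK.Defs
import Pool.Agent.Helper99.CK.Gauss
set_option autoImplicit false
open Complex MeasureTheory Metric Set Filter Topology
open scoped Real ComplexConjugate

/-!
# Project CK: logarithmic polar coordinates
-/

namespace Pool.Agent.Helper68.CKN

open Pool.Agent.Helper52.EK Pool.Agent.Helper99.CK

theorem norm_ep (t θ : ℝ) : ‖ep t θ‖ = Real.exp t := by
  unfold ep
  rw [Complex.norm_exp]
  simp

theorem polar_ep (x θ : ℝ) : Complex.polarCoord.symm (Real.exp (-x), θ) = ep (-x) θ := by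
  rw [Complex.polarCoord_symm_apply]
  unfold ep
  rw [Complex.exp_add, Complex.exp_mul_I]
  push_cast
  rfl

theorem ep_mem {a b x : ℝ} (hx : x ∈ Icc a b) (θ : ℝ) :
    ep (-x) θ ∈ Ann (Real.exp (-b)) (Real.exp (-a)) := by
  refine ⟨?_, ?_⟩ <;> rw [norm_ep] <;> apply Real.exp_le_exp.mpr <;> linarith [hx.1, hx.2]

/-- integration in logarithmic polar coordinates -/
theorem logpolar {E : Type*} [NormedAddCommGroup E] [NormedSpace ℝ E]
    {f : ℂ → E} {a b : ℝ} (hab : a ≤ b)
    (hf : ContinuousOn f (Ann (Real.exp (-b)) (Real.exp (-a))))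
    (hs : ∀ z, z ∉ Ann (Real.exp (-b)) (Real.exp (-a)) → f z = 0) :
    ∫ z : ℂ, f z = ∫ x in a..b, ∫ θ in (-π)..π, Real.exp (-2 * x) • f (ep (-x) θ) := by
  have hpi : (-π : ℝ) ≤ π := by linarith [Real.pi_pos]
  have hr1 : 0 < Real.exp (-b) := Real.exp_pos _
  rw [← Complex.integral_comp_polarCoord_symm f, polarCoord_target]
  have hn : ∀ p : ℝ × ℝ, 0 < p.1 → ‖Complex.polarCoord.symm p‖ = p.1 := by
    intro p hp
    rw [Complex.norm_polarCoord_symm, abs_of_pos hp]
  have hsub : Icc (Real.exp (-b)) (Real.exp (-a)) ×ˢ Ioo (-π) π ⊆ Ioi (0:ℝ) ×ˢ Ioo (-π) π :=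
    prod_mono_left fun r hr => lt_of_lt_of_le hr1 hr.1
  have hsd : ∫ p in Ioi (0:ℝ) ×ˢ Ioo (-π) π, p.1 • f (Complex.polarCoord.symm p) =
      ∫ p in Icc (Real.exp (-b)) (Real.exp (-a)) ×ˢ Ioo (-π) π,
        p.1 • f (Complex.polarCoord.symm p) := by
    apply setIntegral_eq_of_subset_of_forall_sdiff_eq_zero
      (measurableSet_Ioi.prod measurableSet_Ioo) hsub
    rintro ⟨r, θ⟩ ⟨h1, h2⟩
    have hr : 0 < r := h1.1
    have : Complex.polarCoord.symm (r, θ) ∉ Ann (Real.exp (-b)) (Real.exp (-a)) := by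
      intro h3
      apply h2
      refine ⟨?_, h1.2⟩
      have := hn (r, θ) hr
      exact ⟨by rw [← this]; exact h3.1, by rw [← this]; exact h3.2⟩
    rw [hs _ this, smul_zero]
  rw [hsd]
  have hc : ContinuousOn (fun p : ℝ × ℝ => p.1 • f (Complex.polarCoord.symm p))
      (Icc (Real.exp (-b)) (Real.exp (-a)) ×ˢ Icc (-π) π) := by
    apply continuousOn_fst.smul
    apply hf.comp
    · have : Continuous (fun p : ℝ × ℝ => Complex.polarCoord.symm p) := by
        have : (fun p : ℝ × ℝ => Complex.polarCoord.symm p) =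
            fun p : ℝ × ℝ => (p.1 : ℂ) * (Real.cos p.2 + Real.sin p.2 * I) := by
          funext p
          rw [Complex.polarCoord_symm_apply]
        rw [this]
        fun_prop
      exact this.continuousOn
    · rintro ⟨r, θ⟩ ⟨h1, h2⟩
      have hr : 0 < r := lt_of_lt_of_le hr1 h1.1
      have := hn (r, θ) hr
      exact ⟨by rw [this]; exact h1.1, by rw [this]; exact h1.2⟩
  have hi : IntegrableOn (fun p : ℝ × ℝ => p.1 • f (Complex.polarCoord.symm p))
      (Icc (Real.exp (-b)) (Real.exp (-a)) ×ˢ Ioo (-π) π) (volume.prod volume) :=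
    (hc.integrableOn_compact (isCompact_Icc.prod isCompact_Icc)).mono_set
      (prod_mono_right Ioo_subset_Icc_self)
  rw [Measure.volume_eq_prod, setIntegral_prod _ hi]
  have himg : (fun x : ℝ => Real.exp (-x)) '' Icc a b =
      Icc (Real.exp (-b)) (Real.exp (-a)) := by
    ext r
    constructor
    · rintro ⟨x, hx, rfl⟩
      exact ⟨Real.exp_le_exp.mpr (by linarith [hx.2]), Real.exp_le_exp.mpr (by linarith [hx.1])⟩
    · intro hr
      have hr0 : 0 < r := lt_of_lt_of_le hr1 hr.1
      refine ⟨-Real.log r, ⟨?_, ?_⟩, ?_⟩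
      · have := Real.log_le_log hr0 hr.2
        rw [Real.log_exp] at this
        linarith
      · have := Real.log_le_log hr1 hr.1
        rw [Real.log_exp] at this
        linarith
      · show Real.exp (- -Real.log r) = r
        rw [neg_neg, Real.exp_log hr0]
  rw [← himg, integral_image_eq_integral_abs_deriv_smul (f' := fun x => -Real.exp (-x))
    measurableSet_Icc (by
      intro x _
      have : HasDerivAt (fun x : ℝ => Real.exp (-x)) (Real.exp (-x) * -1) x :=
        (hasDerivAt_neg x).exp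
      exact (this.congr_deriv (by ring)).hasDerivWithinAt) (by
      intro x _ y _ h
      have := Real.exp_injective h
      linarith)]
  rw [intervalIntegral.integral_of_le hab, integral_Icc_eq_integral_Ioc]
  apply integral_congr_ae
  refine Eventually.of_forall fun x => ?_
  beta_reduce
  rw [intervalIntegral.integral_of_le hpi, ← integral_Ioc_eq_integral_Ioo, ← integral_smul]
  apply integral_congr_ae
  refine Eventually.of_forall fun θ => ?_
  beta_reduce
  rw [polar_ep, smul_smul, abs_neg, abs_of_pos (Real.exp_pos _), ← Real.exp_add]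
  congr 2
  ring

end Pool.Agent.Helper68.CKN
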