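import Pool.Agent.Helper68.CKN.Pol
import Pool.Agent.Helper52.CK.Defs
import Pool.Agent.Helper99.CK.NearCrit
set_option autoImplicit false
open Complex MeasureTheory Metric Set Filter Topology
open scoped Real ComplexConjugate

/-!
# Project CK: the weight in logarithmic polar coordinates
-/

namespace Pool.Agent.Helper68.CKN

open Pool.Agent.Helper39.Area Pool.Agent.Helper52.EK Pool.Agent.Helper99.CK
open Pool.Agent.Helper52.CK (FF RR JJ EE kA k1 k3 k5)

variable {om om' u u' : ℝ → ℝ} {a b : ℝ}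

noncomputable def Hw (om u : ℝ → ℝ) (w : ℂ) : ℝ := om (-w.re) * u w.im * Real.exp (-2 * w.re)

noncomputable def Kw (om om' u u' : ℝ → ℝ) (w : ℂ) : ℂ :=
  ⟨Real.exp (-2 * w.re) * (-(om' (-w.re) + 2 * om (-w.re)) * u w.im),
    Real.exp (-2 * w.re) * (om (-w.re) * u' w.im)⟩

noncomputable def WW (om u : ℝ → ℝ) (z : ℂ) : ℝ := Hw om u (Complex.log z)

noncomputable def gg (om om' u u' : ℝ → ℝ) (z : ℂ) : ℂ := Kw om om' u u' (Complex.log z) / conj z

theorem per_u' (h : Pool.Agent.Helper52.CK.Wt om om' u u' a b) : Function.Periodic u' (2 * π) := by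
  intro θ
  have h1 : HasDerivAt (fun θ => u (θ + 2 * π)) (u' (θ + 2 * π)) θ := by
    have := (h.du (θ + 2 * π)).comp θ ((hasDerivAt_id θ).add_const (2 * π))
    rw [mul_one] at this
    exact this
  have h2 : (fun θ => u (θ + 2 * π)) = u := by
    funext θ
    exact h.up θ
  rw [h2] at h1
  exact h1.unique (h.du θ)

theorem exp_congr (h : Pool.Agent.Helper52.CK.Wt om om' u u' a b) {w₁ w₂ : ℂ}
    (he : Complex.exp w₁ = Complex.exp w₂) :
    Hw om u w₁ = Hw om u w₂ ∧ Kw om om' u u' w₁ = Kw om om' u u' w₂ := by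
  obtain ⟨n, hn⟩ := Complex.exp_eq_exp_iff_exists_int.mp he
  have h1 : w₁.re = w₂.re := by
    rw [hn]
    simp
  have h2 : w₁.im = w₂.im + n * (2 * π) := by
    rw [hn]
    simp
  have h3 : u w₁.im = u w₂.im := by
    rw [h2]
    exact h.up.int_mul n _
  have h4 : u' w₁.im = u' w₂.im := by
    rw [h2]
    exact (per_u' h).int_mul n _
  unfold Hw Kw
  rw [h1, h3, h4]
  exact ⟨rfl, rfl⟩

theorem hasFDerivAt_Hw (h : Pool.Agent.Helper52.CK.Wt om om' u u' a b) (w : ℂ) :
    HasFDerivAt (Hw om u) ((innerSL ℝ (Kw om om' u u' w) : ℂ →L[ℝ] ℝ)) w := by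
  have r1 : HasFDerivAt (fun w : ℂ => w.re) Complex.reCLM w := Complex.reCLM.hasFDerivAt
  have r2 : HasFDerivAt (fun w : ℂ => w.im) Complex.imCLM w := Complex.imCLM.hasFDerivAt
  have h1 : HasFDerivAt (fun w : ℂ => om (-w.re)) (om' (-w.re) • (-Complex.reCLM)) w :=
    (h.dom (-w.re)).comp_hasFDerivAt w r1.neg
  have h2 : HasFDerivAt (fun w : ℂ => u w.im) (u' w.im • Complex.imCLM) w :=
    (h.du w.im).comp_hasFDerivAt w r2
  have h3 : HasFDerivAt (fun w : ℂ => Real.exp (-2 * w.re))
      (Real.exp (-2 * w.re) • ((-2 : ℝ) • Complex.reCLM)) w :=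
    (r1.const_mul (-2)).exp
  have h4 := (h1.mul h2).mul h3
  refine (h4.congr_fderiv ?_)
  ext v
  rw [innerSL_apply_apply, inner_eq]
  simp [Kw]
  ring

theorem cont_Kw (h : Pool.Agent.Helper52.CK.Wt om om' u u' a b) : Continuous (Kw om om' u u') := by
  have c1 : Continuous om := continuous_iff_continuousAt.mpr fun x => (h.dom x).continuousAt
  have c2 : Continuous u := continuous_iff_continuousAt.mpr fun x => (h.du x).continuousAt
  have c3 := h.com
  have c4 := h.cu
  have e : Kw om om' u u' = fun w : ℂ =>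
      ((Real.exp (-2 * w.re) * (-(om' (-w.re) + 2 * om (-w.re)) * u w.im) : ℝ) : ℂ) +
      ((Real.exp (-2 * w.re) * (om (-w.re) * u' w.im) : ℝ) : ℂ) * I := by
    funext w
    exact Complex.mk_eq_add_mul_I _ _
  rw [e]
  have k1 : Continuous fun w : ℂ => -w.re := Complex.continuous_re.neg
  have k2 : Continuous fun w : ℂ => w.im := Complex.continuous_im
  have k3 : Continuous fun w : ℂ => Real.exp (-2 * w.re) := by fun_prop
  apply Continuous.add
  · exact Complex.continuous_ofReal.comp (k3.mul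
      (((c3.comp k1).add (continuous_const.mul (c1.comp k1))).neg.mul (c2.comp k2)))
  · exact (Complex.continuous_ofReal.comp (k3.mul ((c1.comp k1).mul (c4.comp k2)))).mul
      continuous_const

/-- there is a local branch of the logarithm -/
theorem exists_branch {z : ℂ} (hz : z ≠ 0) : ∃ L : ℂ → ℂ, HasDerivAt L z⁻¹ z ∧
    ∀ᶠ y in 𝓝 z, y ≠ 0 ∧ Complex.exp (L y) = y := by
  have hne : ∀ᶠ y in 𝓝 z, y ≠ 0 := isOpen_ne.mem_nhds hz
  by_cases hs : z ∈ slitPlane
  · refine ⟨Complex.log, Complex.hasDerivAt_log hs, ?_⟩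
    filter_upwards [hne] with y hy
    exact ⟨hy, Complex.exp_log hy⟩
  · have hs' : -z ∈ slitPlane := by
      rw [Complex.mem_slitPlane_iff] at hs ⊢
      push Not at hs
      left
      rw [Complex.neg_re]
      rcases lt_or_eq_of_le hs.1 with h1 | h1
      · linarith
      · exact absurd (Complex.ext h1 hs.2) hz
    refine ⟨fun y => Complex.log (-y) + π * I, ?_, ?_⟩
    · have h1 := ((Complex.hasDerivAt_log hs').comp z (hasDerivAt_neg z)).add_const (π * I)
      refine h1.congr_deriv ?_
      rw [inv_neg]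
      ring
    · filter_upwards [hne] with y hy
      refine ⟨hy, ?_⟩
      rw [Complex.exp_add, Complex.exp_log (neg_ne_zero.mpr hy), Complex.exp_pi_mul_I]
      ring

theorem om_zero (h : Pool.Agent.Helper52.CK.Wt om om' u u' a b) {x : ℝ} (hx : x ≤ a ∨ b ≤ x) :
    om x = 0 := by
  apply h.omz
  rintro ⟨h1, h2⟩
  rcases hx with hx | hx <;> linarith

theorem om'_zero (h : Pool.Agent.Helper52.CK.Wt om om' u u' a b) {x : ℝ} (hx : b < x) :
    om' x = 0 := by
  have h1 : om =ᶠ[𝓝 x] fun _ => 0 := by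
    filter_upwards [isOpen_Ioi.mem_nhds hx] with y hy
    exact om_zero h (Or.inr (le_of_lt hy))
  exact (h.dom x).unique ((hasDerivAt_const x (0:ℝ)).congr_of_eventuallyEq h1)

theorem small_zero (h : Pool.Agent.Helper52.CK.Wt om om' u u' a b) {z : ℂ}
    (hz : ‖z‖ < Real.exp (-b)) : WW om u z = 0 ∧ gg om om' u u' z = 0 := by
  rcases eq_or_ne z 0 with rfl | h0
  · constructor
    · unfold WW Hw
      rw [Complex.log_zero, Complex.zero_re, neg_zero, om_zero h (Or.inl h.a0.le)]
      ring
    · unfold gg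
      simp
  · have hn : 0 < ‖z‖ := norm_pos_iff.mpr h0
    have h1 : b < -(Complex.log z).re := by
      rw [Complex.log_re]
      have := Real.log_lt_log hn hz
      rw [Real.log_exp] at this
      linarith
    constructor
    · unfold WW Hw
      rw [om_zero h (Or.inr h1.le)]
      ring
    · unfold gg
      have : Kw om om' u u' (Complex.log z) = 0 := by
        unfold Kw
        rw [om_zero h (Or.inr h1.le), om'_zero h h1]
        apply Complex.ext <;> simp
      rw [this, zero_div]

theorem wtG (h : Pool.Agent.Helper52.CK.Wt om om' u u' a b) :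
    WtG (WW om u) (gg om om' u u') (Real.exp (-b)) (Real.exp (-a)) := by
  have hd0 : ∀ z : ℂ, z ≠ 0 →
      HasFDerivAt (WW om u) ((innerSL ℝ (gg om om' u u' z) : ℂ →L[ℝ] ℝ)) z := by
    intro z hz
    obtain ⟨L, hL, hLe⟩ := exists_branch hz
    have h1 := (hasFDerivAt_Hw h (L z)).comp z (hL.hasFDerivAt.restrictScalars ℝ)
    have h2 : WW om u =ᶠ[𝓝 z] (Hw om u ∘ L) := by
      filter_upwards [hLe] with y hy
      unfold WW
      rw [Function.comp_apply]
      exact (exp_congr h (by rw [hy.2, Complex.exp_log hy.1])).1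
    have h3 : Kw om om' u u' (Complex.log z) = Kw om om' u u' (L z) := by
      have := hLe.self_of_nhds
      exact (exp_congr h (by rw [this.2, Complex.exp_log this.1])).2
    refine (h1.congr_of_eventuallyEq h2).congr_fderiv ?_
    ext v
    simp only [ContinuousLinearMap.comp_apply, ContinuousLinearMap.coe_restrictScalars',
      innerSL_apply_apply, inner_eq]
    unfold gg
    rw [h3]
    congr 1
    simp only [map_div₀, Complex.conj_conj]
    simp
    ring
  refine ⟨Real.exp_pos _, ?_, ?_, ?_⟩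
  · intro z
    rcases eq_or_ne z 0 with rfl | hz
    · have h1 : WW om u =ᶠ[𝓝 0] fun _ => 0 := by
        filter_upwards [ball_mem_nhds (0:ℂ) (Real.exp_pos (-b))] with y hy
        rw [mem_ball_zero_iff] at hy
        exact (small_zero h hy).1
      have h2 : gg om om' u u' 0 = 0 := (small_zero h (by rw [norm_zero]; exact Real.exp_pos _)).2
      rw [h2]
      refine ((hasFDerivAt_const (0:ℝ) (0:ℂ)).congr_of_eventuallyEq h1).congr_fderiv ?_
      ext v
      simp
    · exact hd0 z hz
  · rw [continuous_iff_continuousAt]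
    intro z
    rcases eq_or_ne z 0 with rfl | hz
    · have h1 : gg om om' u u' =ᶠ[𝓝 0] fun _ => 0 := by
        filter_upwards [ball_mem_nhds (0:ℂ) (Real.exp_pos (-b))] with y hy
        rw [mem_ball_zero_iff] at hy
        exact (small_zero h hy).2
      exact continuousAt_const.congr h1.symm
    · obtain ⟨L, hL, hLe⟩ := exists_branch hz
      have h2 : gg om om' u u' =ᶠ[𝓝 z] fun y => Kw om om' u u' (L y) / conj y := by
        filter_upwards [hLe] with y hy
        unfold gg
        rw [(exp_congr h (by rw [hy.2, Complex.exp_log hy.1])).2]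
      refine ContinuousAt.congr ?_ h2.symm
      apply ContinuousAt.div
      · exact ContinuousAt.comp (cont_Kw h).continuousAt hL.continuousAt
      · exact continuous_conj.continuousAt
      · simpa using hz
  · intro z hz
    rcases eq_or_ne z 0 with rfl | h0
    · exact (small_zero h (by rw [norm_zero]; exact Real.exp_pos _)).1
    · have hn : 0 < ‖z‖ := norm_pos_iff.mpr h0
      unfold WW Hw
      rw [Complex.log_re, om_zero h, zero_mul, zero_mul]
      by_contra h1
      push Not at h1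
      apply hz
      constructor
      · rw [← Real.exp_log hn]
        exact Real.exp_le_exp.mpr (by linarith [h1.2])
      · rw [← Real.exp_log hn]
        exact Real.exp_le_exp.mpr (by linarith [h1.1])

theorem WW_ep (h : Pool.Agent.Helper52.CK.Wt om om' u u' a b) (x θ : ℝ) :
    WW om u (ep (-x) θ) = om x * u θ * Real.exp (2 * x) := by
  have h0 : ep (-x) θ ≠ 0 := Complex.exp_ne_zero _
  have h1 : Complex.exp (Complex.log (ep (-x) θ)) =
      Complex.exp (((-x : ℝ) : ℂ) + (θ : ℂ) * I) := by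
    rw [Complex.exp_log h0]
    rfl
  unfold WW
  rw [(exp_congr h h1).1]
  unfold Hw
  have e1 : ((((-x : ℝ) : ℂ) + (θ : ℂ) * I)).re = -x := by simp
  have e2 : ((((-x : ℝ) : ℂ) + (θ : ℂ) * I)).im = θ := by simp
  rw [e1, e2, neg_neg]
  congr 2
  ring

theorem gg_ep (h : Pool.Agent.Helper52.CK.Wt om om' u u' a b) (x θ : ℝ) :
    gg om om' u u' (ep (-x) θ) = ((Real.exp (2 * x) : ℝ) : ℂ) *
      (-((om' x + 2 * om x : ℝ) : ℂ) * u θ + (om x * u' θ : ℝ) * I) / conj (ep (-x) θ) := by
  have h0 : ep (-x) θ ≠ 0 := Complex.exp_ne_zero _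
  have h1 : Complex.exp (Complex.log (ep (-x) θ)) =
      Complex.exp (((-x : ℝ) : ℂ) + (θ : ℂ) * I) := by
    rw [Complex.exp_log h0]
    rfl
  unfold gg
  rw [(exp_congr h h1).2]
  congr 1
  unfold Kw
  have e1 : ((((-x : ℝ) : ℂ) + (θ : ℂ) * I)).re = -x := by simp
  have e2 : ((((-x : ℝ) : ℂ) + (θ : ℂ) * I)).im = θ := by simp
  rw [e1, e2, neg_neg, Complex.mk_eq_add_mul_I]
  push_cast
  have e3 : (-2 : ℂ) * -(x : ℂ) = 2 * x := by ring
  rw [e3]
  ring

end Pool.Agent.Helper68.CKN
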